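import Pool.Agent.TH462.HL2.Bridge

set_option autoImplicit false

/-! The reflection bound for trees in complete multipartite graphs. -/

namespace Pool.Agent.N464.HL

open Finset Pool.W650.HL
open Pool.Agent.TH462.HL2 (RT msgF bridge_one path_eq msgF_L)

variable {r : ℕ}

/-- positive weights with the Perron value `l` -/
structure Dat (w : Fin r → ℝ) (l : ℝ) : Prop where
  pos : ∀ i, 0 < w i
  lpos : 0 < l
  eqn : ∑ i, w i / (l + w i) = 1

noncomputable def Zt (w : Fin r → ℝ) (T : RT) : ℝ := ∑ i, w i * msgF w T i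

theorem Mop_erase (w f : Fin r → ℝ) (i : Fin r) :
    Mop w f i = ∑ j ∈ univ.erase i, w j * f j := by
  unfold Mop
  rw [Finset.sum_erase_eq_sub (Finset.mem_univ i)]

theorem exists_ne {w : Fin r → ℝ} {l : ℝ} (h : Dat w l) (i : Fin r) : ∃ j, j ≠ i := by
  by_contra hc
  push Not at hc
  have h1 : ∑ j, w j / (l + w j) = w i / (l + w i) := by
    rw [Finset.sum_eq_single i]
    · intro b _ hb
      exact absurd (hc b) hb
    · intro h; exact absurd (Finset.mem_univ i) h
  have h2 := h.eqn
  rw [h1] at h2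
  have h3 := h.pos i
  have h4 := h.lpos
  rw [div_eq_one_iff_eq (by positivity)] at h2
  linarith

theorem Mop_pos {w : Fin r → ℝ} {l : ℝ} (h : Dat w l) {f : Fin r → ℝ} (hf : ∀ i, 0 < f i)
    (i : Fin r) : 0 < Mop w f i := by
  rw [Mop_erase]
  obtain ⟨j, hj⟩ := exists_ne h i
  refine Finset.sum_pos (fun k _ => mul_pos (h.pos k) (hf k)) ⟨j, ?_⟩
  simp [hj]

theorem msg_pos {w : Fin r → ℝ} {l : ℝ} (h : Dat w l) (T : RT) : ∀ i, 0 < msgF w T i := by
  induction T with
  | leaf => intro i; simp [msgF]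
  | join t c h1 h2 =>
    intro i
    simp only [msgF]
    exact mul_pos (h1 i) (Mop_pos h h2 i)

/-- `pi_i = w_i/(l+w_i)` -/
noncomputable def pr (w : Fin r → ℝ) (l : ℝ) (i : Fin r) : ℝ := w i / (l + w i)

noncomputable def qq (w : Fin r → ℝ) (l : ℝ) (i : Fin r) : ℝ := pr w l i * (1 - pr w l i)

theorem pr_pos {w : Fin r → ℝ} {l : ℝ} (h : Dat w l) (i : Fin r) : 0 < pr w l i := by
  have := h.pos i; have := h.lpos
  unfold pr; positivity

theorem one_sub_pr {w : Fin r → ℝ} {l : ℝ} (h : Dat w l) (i : Fin r) :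
    1 - pr w l i = l / (l + w i) := by
  have h1 := h.pos i; have h2 := h.lpos
  unfold pr
  field_simp
  ring

theorem qq_pos {w : Fin r → ℝ} {l : ℝ} (h : Dat w l) (i : Fin r) : 0 < qq w l i := by
  unfold qq
  rw [one_sub_pr h]
  have h1 := h.pos i; have h2 := h.lpos
  exact mul_pos (pr_pos h i) (by positivity)

/-- the one point Jensen inequality -/
theorem jen_one {w : Fin r → ℝ} {l : ℝ} (h : Dat w l) {f : Fin r → ℝ} (hf : ∀ i, 0 < f i)
    (i : Fin r) :
    ∑ j ∈ univ.erase i, pr w l j * (Real.log (f j) + Real.log l + Real.log (l + w j)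
      - Real.log (l + w i) - Real.log (Mop w f i)) ≤ 0 := by
  have hA := Mop_pos h hf i
  have hl := h.lpos
  have hwi := h.pos i
  have h1 : ∀ j ∈ univ.erase i, pr w l j * (Real.log (f j) + Real.log l + Real.log (l + w j)
      - Real.log (l + w i) - Real.log (Mop w f i))
      ≤ (l / (l + w i) / Mop w f i) * (w j * f j) - pr w l j := by
    intro j _
    have hwj := h.pos j
    have hfj := hf j
    have hp := pr_pos h j
    have e1 : Real.log (f j) + Real.log l + Real.log (l + w j)
      - Real.log (l + w i) - Real.log (Mop w f i)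
      = Real.log (f j * l * (l + w j) / (l + w i) / Mop w f i) := by
      rw [Real.log_div (by positivity) (by positivity), Real.log_div (by positivity) (by positivity),
        Real.log_mul (by positivity) (by positivity), Real.log_mul (by positivity) (by positivity)]
    rw [e1]
    have e2 := Real.log_le_sub_one_of_pos
      (show 0 < f j * l * (l + w j) / (l + w i) / Mop w f i by positivity)
    have e3 : pr w l j * (f j * l * (l + w j) / (l + w i) / Mop w f i - 1)
        = (l / (l + w i) / Mop w f i) * (w j * f j) - pr w l j := by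
      unfold pr
      field_simp
    rw [← e3]
    exact mul_le_mul_of_nonneg_left e2 hp.le
  refine (Finset.sum_le_sum h1).trans ?_
  rw [Finset.sum_sub_distrib, ← Finset.mul_sum, ← Mop_erase]
  have e4 : ∑ j ∈ univ.erase i, pr w l j = 1 - pr w l i := by
    rw [Finset.sum_erase_eq_sub (Finset.mem_univ i)]
    have := h.eqn
    unfold pr
    rw [this]
  rw [e4, one_sub_pr h, div_mul_cancel₀ _ hA.ne']
  simp

theorem jen {w : Fin r → ℝ} {l : ℝ} (h : Dat w l) {f : Fin r → ℝ} (hf : ∀ i, 0 < f i) :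
    ∑ i, qq w l i * (Real.log (f i) + Real.log l) ≤ ∑ i, qq w l i * Real.log (Mop w f i) := by
  set g : Fin r → ℝ := fun j => pr w l j * (Real.log (f j) + Real.log l + Real.log (l + w j)) with hg
  have hone : ∀ i, ∑ j ∈ univ.erase i, pr w l j = 1 - pr w l i := by
    intro i
    rw [Finset.sum_erase_eq_sub (Finset.mem_univ i)]
    have := h.eqn
    unfold pr
    rw [this]
  have h1 : ∀ i, pr w l i * ((∑ j, g j) - g i)
      ≤ qq w l i * (Real.log (l + w i) + Real.log (Mop w f i)) := by
    intro i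
    have h2 := jen_one h hf i
    have e : ∑ j ∈ univ.erase i, pr w l j * (Real.log (f j) + Real.log l + Real.log (l + w j)
      - Real.log (l + w i) - Real.log (Mop w f i))
      = ((∑ j, g j) - g i) - (1 - pr w l i) * (Real.log (l + w i) + Real.log (Mop w f i)) := by
      rw [← Finset.sum_erase_eq_sub (Finset.mem_univ i), ← hone i, Finset.sum_mul,
        ← Finset.sum_sub_distrib]
      refine Finset.sum_congr rfl fun j _ => ?_
      simp only [hg]
      ring
    rw [e] at h2
    have h3 := mul_le_mul_of_nonneg_left h2 (pr_pos h i).le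
    unfold qq
    nlinarith [h3]
  have h2 := Finset.sum_le_sum fun i (_ : i ∈ (univ : Finset (Fin r))) => h1 i
  have e1 : ∑ i, pr w l i * ((∑ j, g j) - g i)
      = ∑ i, qq w l i * (Real.log (f i) + Real.log l + Real.log (l + w i)) := by
    have : ∑ i, pr w l i * ((∑ j, g j) - g i) = (∑ i, pr w l i) * (∑ j, g j)
        - ∑ i, pr w l i * g i := by
      rw [Finset.sum_mul, ← Finset.sum_sub_distrib]
      exact Finset.sum_congr rfl fun i _ => by ring
    rw [this]
    have hs : ∑ i, pr w l i = 1 := h.eqn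
    rw [hs, one_mul, ← Finset.sum_sub_distrib]
    refine Finset.sum_congr rfl fun i _ => ?_
    simp only [hg, qq]
    ring
  rw [e1] at h2
  have e2 : ∑ i, qq w l i * (Real.log (f i) + Real.log l + Real.log (l + w i))
      = ∑ i, qq w l i * (Real.log (f i) + Real.log l) + ∑ i, qq w l i * Real.log (l + w i) := by
    rw [← Finset.sum_add_distrib]
    exact Finset.sum_congr rfl fun i _ => by ring
  have e3 : ∑ i, qq w l i * (Real.log (l + w i) + Real.log (Mop w f i))
      = ∑ i, qq w l i * Real.log (l + w i) + ∑ i, qq w l i * Real.log (Mop w f i) := by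
    rw [← Finset.sum_add_distrib]
    exact Finset.sum_congr rfl fun i _ => by ring
  rw [e2, e3] at h2
  linarith

theorem ent {w : Fin r → ℝ} {l : ℝ} (h : Dat w l) (T : RT) :
    ((RT.size T : ℝ) - 1) * ((∑ i, qq w l i) * Real.log l)
      ≤ ∑ i, qq w l i * Real.log (msgF w T i) := by
  induction T with
  | leaf => simp [msgF, RT.size]
  | join t c h1 h2 =>
    have h3 := jen h (msg_pos h c)
    have e1 : ∑ i, qq w l i * Real.log (msgF w (RT.join t c) i)
        = ∑ i, qq w l i * Real.log (msgF w t i)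
          + ∑ i, qq w l i * Real.log (Mop w (msgF w c) i) := by
      rw [← Finset.sum_add_distrib]
      refine Finset.sum_congr rfl fun i _ => ?_
      simp only [msgF]
      rw [Real.log_mul (msg_pos h t i).ne' (Mop_pos h (msg_pos h c) i).ne']
      ring
    have e2 : ∑ i, qq w l i * (Real.log (msgF w c i) + Real.log l)
        = ∑ i, qq w l i * Real.log (msgF w c i) + (∑ i, qq w l i) * Real.log l := by
      rw [Finset.sum_mul, ← Finset.sum_add_distrib]
      exact Finset.sum_congr rfl fun i _ => by ring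
    rw [e2] at h3
    rw [e1]
    have e3 : ((RT.size (RT.join t c) : ℕ) : ℝ) = (RT.size t : ℝ) + RT.size c := by
      simp [RT.size]
    rw [e3]
    nlinarith [h1, h2, h3]

theorem term_le {w : Fin r → ℝ} {l : ℝ} (h : Dat w l) (T : RT) (i : Fin r) :
    w i * msgF w T i ≤ Zt w T := by
  unfold Zt
  exact Finset.single_le_sum (f := fun i => w i * msgF w T i)
    (fun j _ => (mul_pos (h.pos j) (msg_pos h T j)).le) (Finset.mem_univ i)

theorem ex_i {w : Fin r → ℝ} {l : ℝ} (h : Dat w l) : Nonempty (Fin r) := by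
  by_contra hc
  rw [not_nonempty_iff] at hc
  have := h.eqn
  simp at this

theorem Zt_pos {w : Fin r → ℝ} {l : ℝ} (h : Dat w l) (T : RT) : 0 < Zt w T := by
  obtain ⟨i⟩ := ex_i h
  exact lt_of_lt_of_le (mul_pos (h.pos i) (msg_pos h T i)) (term_le h T i)

theorem low {w : Fin r → ℝ} {l : ℝ} (h : Dat w l) :
    ∃ c : ℝ, 0 < c ∧ ∀ T : RT, c * l ^ (RT.size T) ≤ Zt w T := by
  set Q := ∑ i, qq w l i with hQ
  have hQpos : 0 < Q := by
    obtain ⟨i⟩ := ex_i h
    exact Finset.sum_pos (fun j _ => qq_pos h j) ⟨i, Finset.mem_univ i⟩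
  set c' := (∑ i, qq w l i * Real.log (w i)) / Q with hc'
  refine ⟨Real.exp c' / l, div_pos (Real.exp_pos _) h.lpos, fun T => ?_⟩
  have hZ := Zt_pos h T
  have h1 : ∑ i, qq w l i * Real.log (msgF w T i)
      ≤ Q * Real.log (Zt w T) - ∑ i, qq w l i * Real.log (w i) := by
    rw [hQ, Finset.sum_mul, ← Finset.sum_sub_distrib]
    refine Finset.sum_le_sum fun i _ => ?_
    have h2 := Real.log_le_log (mul_pos (h.pos i) (msg_pos h T i)) (term_le h T i)
    rw [Real.log_mul (h.pos i).ne' (msg_pos h T i).ne'] at h2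
    nlinarith [qq_pos h i]
  have h2 := (ent h T).trans h1
  have h3 : c' + ((RT.size T : ℝ) - 1) * Real.log l ≤ Real.log (Zt w T) := by
    have e : c' * Q = ∑ i, qq w l i * Real.log (w i) := by
      rw [hc']; field_simp
    rw [← e] at h2
    have : Q * (c' + ((RT.size T : ℝ) - 1) * Real.log l) ≤ Q * Real.log (Zt w T) := by
      rw [← hQ] at h2
      nlinarith [h2]
    exact le_of_mul_le_mul_left this hQpos
  have h4 := Real.exp_le_exp.2 h3
  rw [Real.exp_log hZ] at h4
  refine le_trans (le_of_eq ?_) h4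
  rw [Real.exp_add]
  have e5 : Real.exp (((RT.size T : ℝ) - 1) * Real.log l) = l ^ (RT.size T) / l := by
    have e6 : ((RT.size T : ℝ) - 1) * Real.log l = (RT.size T : ℝ) * Real.log l - Real.log l := by
      ring
    rw [e6, Real.exp_sub, Real.exp_log h.lpos, Real.exp_nat_mul, Real.exp_log h.lpos]
  rw [e5]
  ring

/-! ### reflection -/

theorem lor (x y : Fin r → ℝ) (hy : ∀ i, 0 ≤ y i) :
    ((∑ i, x i) * (∑ i, x i) - ∑ i, x i * x i) * ((∑ i, y i) * (∑ i, y i) - ∑ i, y i * y i)
      ≤ ((∑ i, x i) * (∑ i, y i) - ∑ i, x i * y i) ^ 2 := by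
  set X := ∑ i, x i
  set Y := ∑ i, y i
  set P := ∑ i, x i * x i
  set Q := ∑ i, y i * y i
  set R := ∑ i, x i * y i
  have hQY : Q ≤ Y * Y := by
    have : Y * Y = ∑ i, y i * Y := by rw [Finset.sum_mul]
    rw [this]
    refine Finset.sum_le_sum fun i _ => ?_
    refine mul_le_mul_of_nonneg_left ?_ (hy i)
    exact Finset.single_le_sum (f := y) (fun j _ => hy j) (Finset.mem_univ i)
  have hsq : 0 ≤ ∑ i, (Y * x i - X * y i) ^ 2 := Finset.sum_nonneg fun i _ => sq_nonneg _
  have e : ∑ i, (Y * x i - X * y i) ^ 2 = Y ^ 2 * P - 2 * X * Y * R + X ^ 2 * Q := by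
    have : ∀ i, (Y * x i - X * y i) ^ 2
        = Y ^ 2 * (x i * x i) - 2 * X * Y * (x i * y i) + X ^ 2 * (y i * y i) := fun i => by ring
    rw [Finset.sum_congr rfl fun i _ => this i, Finset.sum_add_distrib, Finset.sum_sub_distrib,
      ← Finset.mul_sum, ← Finset.mul_sum, ← Finset.mul_sum]
  rw [e] at hsq
  rcases hQY.lt_or_eq with hlt | heq
  · have hY : Y ≠ 0 := by
      intro h0
      rw [h0] at hlt
      have : 0 ≤ Q := Finset.sum_nonneg fun i _ => mul_self_nonneg _
      linarith
    have hY2 : 0 < Y ^ 2 := by positivity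
    have hb : 0 < Y * Y - Q := by linarith
    have key : (X * X - P) * (Y * Y - Q) * Y ^ 2 ≤ (X * Y - R) ^ 2 * Y ^ 2 := by
      nlinarith [mul_nonneg hb.le hsq, sq_nonneg ((Y * Y - Q) * X - (X * Y - R) * Y)]
    exact le_of_mul_le_mul_right key hY2
  · rw [heq, sub_self, mul_zero]
    positivity

theorem Zt_join (w : Fin r → ℝ) (t c : RT) :
    Zt w (RT.join t c) = (∑ i, w i * msgF w t i) * (∑ i, w i * msgF w c i)
      - ∑ i, (w i * msgF w t i) * (w i * msgF w c i) := by
  unfold Zt
  rw [Finset.sum_mul, ← Finset.sum_sub_distrib]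
  refine Finset.sum_congr rfl fun i _ => ?_
  simp only [msgF, Mop]
  ring

theorem refl' {w : Fin r → ℝ} {l : ℝ} (h : Dat w l) (t c : RT) :
    Zt w (RT.join t t) * Zt w (RT.join c c) ≤ Zt w (RT.join t c) ^ 2 := by
  rw [Zt_join, Zt_join, Zt_join]
  exact lor _ _ fun i => (mul_pos (h.pos i) (msg_pos h c i)).le

theorem swap' (w : Fin r → ℝ) (t c : RT) : Zt w (RT.join t c) = Zt w (RT.join c t) := by
  rw [Zt_join, Zt_join, mul_comm]
  congr 1
  exact Finset.sum_congr rfl fun i _ => by ring

theorem comm' (w : Fin r → ℝ) (t c d : RT) :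
    Zt w (RT.join (RT.join t c) d) = Zt w (RT.join (RT.join t d) c) := by
  unfold Zt
  refine Finset.sum_congr rfl fun i _ => ?_
  simp only [msgF]
  ring

theorem leafrep (w : Fin r → ℝ) (m : ℕ) : ∀ t c : RT, RT.size c ≤ m →
    ∃ T' : RT, RT.size T' + 1 = RT.size t + RT.size c ∧
      Zt w (RT.join t c) = Zt w (RT.join T' RT.leaf) := by
  induction m with
  | zero =>
    intro t c hc
    have := RT.size_pos c
    omega
  | succ m ih =>
    intro t c hc
    cases c with
    | leaf => exact ⟨t, by simp [RT.size], rfl⟩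
    | join c1 c2 =>
      have h1 := RT.size_pos c1
      have h2 := RT.size_pos c2
      have hs : RT.size (RT.join c1 c2) = RT.size c1 + RT.size c2 := rfl
      obtain ⟨T', hT1, hT2⟩ := ih (RT.join c1 t) c2 (by omega)
      refine ⟨T', ?_, ?_⟩
      · have : RT.size (RT.join c1 t) = RT.size c1 + RT.size t := rfl
        omega
      · rw [swap', comm', hT2]

theorem main {w : Fin r → ℝ} {l : ℝ} (h : Dat w l) (T : RT) (hT : 2 ≤ RT.size T) :
    Zt w (RT.join RT.leaf RT.leaf) * l ^ (RT.size T) ≤ l ^ 2 * Zt w T := by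
  set Z2 := Zt w (RT.join RT.leaf RT.leaf) with hZ2
  have hZ2p : 0 < Z2 := Zt_pos h _
  have hl := h.lpos
  obtain ⟨c, hc, hlow⟩ := low h
  set u : RT → ℝ := fun T => Zt w T * l ^ 2 / (Z2 * l ^ (RT.size T)) with hu
  have upos : ∀ T, 0 < u T := fun T => by
    have := Zt_pos h T
    simp only [hu]; positivity
  have ulow : ∀ T, c * l ^ 2 / Z2 ≤ u T := by
    intro T
    simp only [hu]
    rw [div_le_div_iff₀ hZ2p (by positivity)]
    have := hlow T
    have h2 : 0 ≤ l ^ 2 * Z2 := by positivity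
    nlinarith [mul_le_mul_of_nonneg_right this h2]
  have step : ∀ T : RT, 2 ≤ RT.size T → ∃ D : RT, 2 ≤ RT.size D ∧ u D ≤ u T ^ 2 := by
    intro T hT
    cases T with
    | leaf => simp [RT.size] at hT
    | join t c =>
      obtain ⟨T', hT1, hT2⟩ := leafrep w (RT.size c) t c le_rfl
      have hp := RT.size_pos T'
      have hD : RT.size (RT.join T' T') = RT.size T' + RT.size T' := rfl
      refine ⟨RT.join T' T', by omega, ?_⟩
      have h1 := refl' h T' RT.leaf
      rw [← hZ2, ← hT2] at h1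
      have hs : RT.size (RT.join t c) = RT.size T' + 1 := by
        have : RT.size (RT.join t c) = RT.size t + RT.size c := rfl
        omega
      simp only [hu]
      rw [hs, hD, div_pow, div_le_div_iff₀ (by positivity) (by positivity)]
      have e : Zt w (RT.join T' T') * l ^ 2 * (Z2 * l ^ (RT.size T' + 1)) ^ 2
          = (Zt w (RT.join T' T') * Z2) * (Z2 * l ^ (RT.size T' + RT.size T') * l ^ 4) := by
        ring
      have e' : (Zt w (RT.join t c) * l ^ 2) ^ 2 * (Z2 * l ^ (RT.size T' + RT.size T'))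
          = (Zt w (RT.join t c)) ^ 2 * (Z2 * l ^ (RT.size T' + RT.size T') * l ^ 4) := by
        ring
      rw [e, e']
      exact mul_le_mul_of_nonneg_right h1 (by positivity)
  have iter : ∀ k : ℕ, ∃ D : RT, 2 ≤ RT.size D ∧ u D ≤ u T ^ (2 ^ k) := by
    intro k
    induction k with
    | zero => exact ⟨T, hT, by simp⟩
    | succ k ih =>
      obtain ⟨D, hD, hD2⟩ := ih
      obtain ⟨E, hE, hE2⟩ := step D hD
      refine ⟨E, hE, hE2.trans ?_⟩
      have e : u T ^ (2 ^ (k + 1)) = (u T ^ (2 ^ k)) ^ 2 := by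
        rw [← pow_mul, ← pow_succ]
      rw [e]
      exact pow_le_pow_left₀ (upos D).le hD2 2
  have hge : 1 ≤ u T := by
    by_contra hlt
    push Not at hlt
    obtain ⟨m, hm⟩ := exists_pow_lt_of_lt_one (show 0 < c * l ^ 2 / Z2 by positivity) hlt
    obtain ⟨D, _, hD2⟩ := iter m
    have h1 := ulow D
    have h2 : u T ^ (2 ^ m) ≤ u T ^ m :=
      pow_le_pow_of_le_one (upos T).le hlt.le (Nat.lt_two_pow_self).le
    linarith
  simp only [hu] at hge
  rw [one_le_div (by positivity)] at hge
  linarith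

/-! ### the path from above -/

theorem Mop_norm {w : Fin r → ℝ} {l : ℝ} (h : Dat w l) (f : Fin r → ℝ) :
    ∑ i, w i * (Mop w f i) ^ 2 ≤ l ^ 2 * ∑ i, w i * f i ^ 2 := by
  have hl := h.lpos
  have hone : ∀ i, ∑ j ∈ univ.erase i, pr w l j = 1 - pr w l i := by
    intro i
    rw [Finset.sum_erase_eq_sub (Finset.mem_univ i)]
    have := h.eqn
    unfold pr
    rw [this]
  set g : Fin r → ℝ := fun j => w j * (l + w j) * f j ^ 2 with hg
  have h1 : ∀ i, (Mop w f i) ^ 2 ≤ (l / (l + w i)) * ((∑ j, g j) - g i) := by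
    intro i
    rw [Mop_erase, ← one_sub_pr h, ← hone i, ← Finset.sum_erase_eq_sub (Finset.mem_univ i)]
    refine Finset.sum_sq_le_sum_mul_sum_of_sq_eq_mul _ (fun j _ => (pr_pos h j).le)
      (fun j _ => ?_) (fun j _ => ?_)
    · have := h.pos j
      simp only [hg]; positivity
    · have := h.pos j
      simp only [hg, pr]
      field_simp
  have h2 : ∑ i, w i * (Mop w f i) ^ 2 ≤ ∑ i, l * (pr w l i * ((∑ j, g j) - g i)) := by
    refine Finset.sum_le_sum fun i _ => ?_
    have h3 := mul_le_mul_of_nonneg_left (h1 i) (h.pos i).le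
    refine h3.trans (le_of_eq ?_)
    have := h.pos i
    unfold pr
    field_simp
  refine h2.trans (le_of_eq ?_)
  have hs : ∑ i, pr w l i = 1 := h.eqn
  have e1 : ∑ i, l * (pr w l i * ((∑ j, g j) - g i))
      = l * ((∑ i, pr w l i) * (∑ j, g j) - ∑ i, pr w l i * g i) := by
    rw [← Finset.mul_sum, Finset.sum_mul, ← Finset.sum_sub_distrib]
    congr 1
    exact Finset.sum_congr rfl fun i _ => by ring
  rw [e1, hs, one_mul, ← Finset.sum_sub_distrib, Finset.mul_sum, Finset.mul_sum]
  refine Finset.sum_congr rfl fun i _ => ?_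
  have := h.pos i
  simp only [hg, pr]
  field_simp
  ring

theorem U_norm {w : Fin r → ℝ} {l : ℝ} (h : Dat w l) (n : ℕ) :
    ∑ i, w i * (U w n i) ^ 2 ≤ (l ^ 2) ^ n * ∑ i, w i := by
  induction n with
  | zero => simp [U]
  | succ n ih =>
    have h2 : U w (n + 1) = Mop w (U w n) := by
      unfold U
      rw [Function.iterate_succ_apply']
    rw [h2]
    refine (Mop_norm h _).trans ?_
    calc l ^ 2 * ∑ i, w i * U w n i ^ 2 ≤ l ^ 2 * ((l ^ 2) ^ n * ∑ i, w i) :=
          mul_le_mul_of_nonneg_left ih (by positivity)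
      _ = _ := by ring

theorem path_le {w : Fin r → ℝ} {l : ℝ} (h : Dat w l) (n : ℕ) :
    ∑ i, w i * U w n i ≤ l ^ n * ∑ i, w i := by
  have hl := h.lpos
  have hw : 0 ≤ ∑ i, w i := Finset.sum_nonneg fun i _ => (h.pos i).le
  refine abs_le_of_sq_le_sq' (a := ∑ i, w i * U w n i) ?_ (by positivity) |>.2
  have h1 : (∑ i, w i * U w n i) ^ 2 ≤ (∑ i, w i) * ∑ i, w i * (U w n i) ^ 2 := by
    refine Finset.sum_sq_le_sum_mul_sum_of_sq_eq_mul _ (fun j _ => (h.pos j).le)
      (fun j _ => ?_) (fun j _ => by ring)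
    have := h.pos j
    positivity
  refine h1.trans ?_
  have := mul_le_mul_of_nonneg_left (U_norm h n) hw
  refine this.trans (le_of_eq ?_)
  ring

end Pool.Agent.N464.HL
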